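import Pool.Agent.Helper45.SP.GoalsG

set_option autoImplicit false

/-!
# NILLIM (MP_97d78d_ag): limits of nilpotent endomorphisms are nilpotent
-/

namespace Pool.Agent.Helper65.SP

open Filter Topology
open Pool.Agent.Helper45.SP

/-- The statement in a normed space. -/
theorem nillim_normed {E : Type} [NormedAddCommGroup E] [NormedSpace ℝ E] [FiniteDimensional ℝ E]
    (N : ℕ → E →ₗ[ℝ] E) (T : E →ₗ[ℝ] E) (hN : ∀ k, IsNilpotent (N k))
    (h : ∀ x, Tendsto (fun k => N k x) atTop (𝓝 (T x))) : IsNilpotent T := by
  classical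
  let b := Module.finBasis ℝ E
  have hpow : ∀ k, (N k) ^ (Module.finrank ℝ E) = 0 := by
    intro k
    have h1 := (hN k).charpoly_eq_X_pow_finrank
    have h2 := LinearMap.aeval_self_charpoly (N k)
    rw [h1] at h2
    simpa using h2
  have hM : Tendsto (fun k => LinearMap.toMatrix b b (N k)) atTop
      (𝓝 (LinearMap.toMatrix b b T)) := by
    refine tendsto_pi_nhds.2 fun i => tendsto_pi_nhds.2 fun j => ?_
    simp only [LinearMap.toMatrix_apply]
    have hc : Continuous (b.coord i) := LinearMap.continuous_of_finiteDimensional _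
    exact (hc.tendsto (T (b j))).comp (h (b j))
  have hMp := hM.pow (Module.finrank ℝ E)
  have e0 : ∀ k, (LinearMap.toMatrix b b (N k)) ^ (Module.finrank ℝ E) = 0 := by
    intro k
    have : (LinearMap.toMatrixAlgEquiv b) (N k ^ (Module.finrank ℝ E)) = 0 := by
      rw [hpow k, map_zero]
    rw [map_pow] at this
    exact this
  have hz : (LinearMap.toMatrix b b T) ^ (Module.finrank ℝ E) = 0 := by
    refine tendsto_nhds_unique hMp ?_
    simp only [e0]
    exact tendsto_const_nhds
  refine ⟨Module.finrank ℝ E, ?_⟩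
  apply (LinearMap.toMatrixAlgEquiv b).injective
  rw [map_pow, map_zero]
  exact hz

/-- **NILLIM**. -/
theorem NILLIM : S_NILLIM := by
  intro E _ _ _ ν hν N T hN h
  let _ : Norm E := ⟨ν⟩
  have core : NormedSpace.Core ℝ E :=
    { norm_nonneg := fun x => apply_nonneg ν x
      norm_smul := fun c x => map_smul_eq_mul ν c x
      norm_triangle := fun x y => map_add_le_add ν x y
      norm_eq_zero_iff := fun x => ⟨fun hx => hν x hx, fun hx => by subst hx; exact map_zero ν⟩ }
  let _ : NormedAddCommGroup E := NormedAddCommGroup.ofCore core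
  let _ : NormedSpace ℝ E := NormedSpace.ofCore core
  refine nillim_normed N T hN fun x => ?_
  rw [tendsto_iff_norm_sub_tendsto_zero]
  exact h x

end Pool.Agent.Helper65.SP
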